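import Mathlib
import Pool.Agent.N176.GP.Fin
import Pool.Agent.N176.OW.All2
import Pool.Agent.H32x.PL.Ex
import Pool.Agent.H32x.PL.GauH

set_option autoImplicit false

/-!
# The counting function of the exponents has the Gaussian fluctuations of a Poisson process

For real `β > 0` and a prime `p` let `W β p` be the `p`-rough part (the product, with multiplicity,
of the prime factors larger than `p`) of the largest integer below `β * 2 ^ p`.  For `β = 1` this is
the Mersenne number `2 ^ p - 1` itself.  The exponents of `β` in a set `S` are the primes `p` of `S`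
with `W β p` prime.  The base `2` is fixed.

According to the model behind the conjecture the exponents in `S` form, on the scale `κ V S p`, where
`V S n` is the sum of `log p / p` over the primes `p ≤ n` of `S` and `κ = e ^ γ / log 2`, a Poisson
process of intensity one, so that their number `M S β n` up to `n` has mean and variance `κ V S n` and
is asymptotically normal, and the fluctuations in disjoint windows are independent.  We prove this,
for a random `β` with the uniform distribution on any set of finite positive measure, for every set `S`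
of infinite weight whose dyadic pieces have weights tending to zero and in which the pairs `p`, `p + h`
have weight zero relative to the weight of `S`, for every `h` (without this condition the variance is
larger, as zero digits repeat an exponent).

* The central limit theorem: on every measurable set `A` of amplitudes the relative measure of the `β`
  with `M S β n ≤ κ V S n + y √(κ V S n)` tends to `Φ y`.
* The limit process: the same for the numbers of exponents in the windows
  `t i * x < κ V S q ≤ t (i + 1) * x`, `i < r`, as `x → ∞`, jointly; the limit is the product of the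
  `Φ (y i)`, as for the increments of Brownian motion.
-/

namespace Pool.Agent.Results.MP_9b2bac_nt.BrownianFluctuations

open Filter Topology MeasureTheory ProbabilityTheory

/-- The product, with multiplicity, of the prime factors of `m` that are larger than `p`. -/
def roughPart (p m : ℕ) : ℕ := (m.primeFactorsList.filter (fun r => p < r)).prod

/-- The `p`-rough part of the largest integer below `β * 2 ^ p`. -/
noncomputable def W (β : ℝ) (p : ℕ) : ℕ := roughPart p (⌈β * 2 ^ p⌉₊ - 1)

/-- The exponents of `β` in `S`: the primes `p` in `S` for which `W β p` is prime. -/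
def E (S : Set ℕ) (β : ℝ) : Set ℕ := {p | p.Prime ∧ p ∈ S ∧ (W β p).Prime}

open Classical in
/-- The number of the exponents `p ≤ n` of `β` in `S`. -/
noncomputable def M (S : Set ℕ) (β : ℝ) (n : ℕ) : ℕ :=
  ((Finset.range (n + 1)).filter (fun p => p ∈ E S β)).card

open Classical in
/-- The sum of `log p / p` over the primes `p ≤ n` in the set `S`. -/
noncomputable def V (S : Set ℕ) (n : ℕ) : ℝ :=
  ∑ p ∈ (Finset.range (n + 1)).filter (fun p => p.Prime ∧ p ∈ S), Real.log p / p

/-- The constant of the law, `e ^ γ / log 2`. -/
noncomputable def κ : ℝ := Real.exp Real.eulerMascheroniConstant / Real.log 2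

/-- The standard normal distribution function, with values in `[0, ∞]`. -/
noncomputable def Φ (y : ℝ) : ENNReal := gaussianReal 0 1 (Set.Iic y)

/-- The central limit theorem for the number of exponents in `S`: on every measurable set `A` of
amplitudes, of finite measure, the measure of the `β` with `M S β n ≤ κ V S n + y √(κ V S n)` tends
to the measure of `A` times `Φ y`. -/
def NormalLaw (S : Set ℕ) : Prop :=
  ∀ A : Set ℝ, MeasurableSet A → A ⊆ Set.Ioi 0 → volume A ≠ ⊤ → ∀ y : ℝ,
    Tendsto (fun n : ℕ => volume {β ∈ A | (M S β n : ℝ) ≤ κ * V S n + y * √(κ * V S n)}) atTop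
      (𝓝 (volume A * Φ y))

/-- The joint law of the numbers of exponents in disjoint windows, on the scale `κ * V S`: on every
measurable set `A` of amplitudes, of finite measure, the measure of the `β` for which for all `i < r`
the window `t i * x < κ * V S q ≤ t (i + 1) * x` contains at most
`(t (i + 1) - t i) * x + y i * √((t (i + 1) - t i) * x)` exponents `q` tends, as `x → ∞`, to the
measure of `A` times the product of the `Φ (y i)`. -/
def BrownianLaw (S : Set ℕ) : Prop :=
  ∀ A : Set ℝ, MeasurableSet A → A ⊆ Set.Ioi 0 → volume A ≠ ⊤ →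
    ∀ (r : ℕ) (t : ℕ → ℝ) (y : Fin r → ℝ), 0 ≤ t 0 → (∀ i < r, t i < t (i + 1)) →
    Tendsto (fun x : ℝ => volume {β ∈ A | ∀ i : Fin r,
      (({q | q ∈ E S β ∧ t i * x < κ * V S q ∧ κ * V S q ≤ t (i + 1) * x}).ncard : ℝ) ≤
        (t (i + 1) - t i) * x + y i * √((t (i + 1) - t i) * x)}) atTop
      (𝓝 (volume A * ∏ i, Φ (y i)))

/-- At `β = 1` the exponents are those of the Mersenne primes.  The two laws hold for every set `S`
of infinite weight whose dyadic pieces have weights tending to zero and whose pairs at every fixed
distance have relative weight zero; in particular for all primes in the windows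
`(2 ^ i, (1 + ε i) 2 ^ i]`, if `ε i → 0` and `∑ ε i = ∞`. -/
theorem result :
    (∀ S : Set ℕ, E S 1 = {p | p.Prime ∧ p ∈ S ∧ (2 ^ p - 1).Prime}) ∧
    (∀ S : Set ℕ, Tendsto (fun n => V S n) atTop atTop →
      Tendsto (fun n : ℕ => V S (2 * n) - V S n) atTop (𝓝 0) →
      (∀ h : ℕ, 1 ≤ h → Tendsto (fun n =>
        V {p | p ∈ S ∧ p + h ∈ S ∧ (p + h).Prime} n / V S n) atTop (𝓝 0)) →
      NormalLaw S ∧ BrownianLaw S) ∧
    (∀ ε : ℕ → ℝ, (∀ i, 0 ≤ ε i) → (∀ i, ε i ≤ 1) → Tendsto ε atTop (𝓝 0) → ¬ Summable ε →
      NormalLaw {p | ∃ i : ℕ, 2 ^ i < p ∧ (p : ℝ) ≤ 2 ^ i * (1 + ε i)} ∧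
      BrownianLaw {p | ∃ i : ℕ, 2 ^ i < p ∧ (p : ℝ) ≤ 2 ^ i * (1 + ε i)}) := by
  classical
  have ek : Pool.Agent.N176.OW.kap 2 = κ := by
    unfold Pool.Agent.N176.OW.kap κ
    norm_num
  have eE : ∀ S β, Pool.Agent.H32x.PL.Et 2 S β = E S β := by
    intro S β
    unfold Pool.Agent.H32x.PL.Et E W Pool.Agent.N176.GP.NB
    push_cast
    rfl
  have ev : ∀ S n, Pool.Agent.H32x.PL.vv 2 S n = κ * V S n := by
    intro S n
    unfold Pool.Agent.H32x.PL.vv
    rw [ek]
    rfl
  have eM : ∀ S β n, Pool.Agent.N176.GP.MB 2 S β n = M S β n := by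
    intro S β n
    rw [Pool.Agent.H32x.PL.MB_eq]
    unfold M
    simp only [eE]
  have hmain : ∀ S : Set ℕ, Tendsto (fun n => V S n) atTop atTop →
      Tendsto (fun n : ℕ => V S (2 * n) - V S n) atTop (𝓝 0) →
      (∀ h : ℕ, 1 ≤ h → Tendsto (fun n =>
        V {p | p ∈ S ∧ p + h ∈ S ∧ (p + h).Prime} n / V S n) atTop (𝓝 0)) →
      NormalLaw S ∧ BrownianLaw S := by
    intro S hS hD hP
    refine ⟨fun A hA hA0 hfin y => ?_, fun A hA hA0 hfin r t y ht0 ht => ?_⟩
    · have h := Pool.Agent.H32x.PL.clt Pool.Agent.N176.OW.All.fm (b := 2) le_rfl hS hD hP y A hA hA0 hfin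
      simp only [eM, ev] at h
      exact h
    · have h := Pool.Agent.H32x.PL.gauss Pool.Agent.N176.OW.All.fm (b := 2) le_rfl hS hD hP ht0 ht y
        A hA hA0 hfin
      simp only [eE, ev] at h
      exact h
  refine ⟨fun S => ?_, hmain, fun ε hε0 hε1 hε hεs => ?_⟩
  · unfold E
    ext p
    simp only [Set.mem_ofPred_eq]
    refine and_congr_right fun hp => and_congr_right fun _ => ?_
    have h : W 1 p = 2 ^ p - 1 := Pool.Agent.N176.GP.special hp
    rw [h]
  · obtain ⟨h1, h2, h3⟩ := Pool.Agent.H32x.PL.thin_ok hε0 hε1 hε hεs
    exact hmain _ h1 h2 h3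

end Pool.Agent.Results.MP_9b2bac_nt.BrownianFluctuations
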