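import Mathlib
import Pool.Agent.Helper76x.EX.Cor
import Pool.Agent.Helper76x.EX.FewGap

set_option autoImplicit false

/-!
# The exceptional amplitudes of the Lenstra-Pomerance-Wagstaff law

For real `β > 0` and a prime `p` let `W β p` be the `p`-rough part (the product, with multiplicity,
of the prime factors larger than `p`) of the largest integer below `β * 2 ^ p`.  For `β = 1` this is
the Mersenne number `2 ^ p - 1` itself.  Let `M β n` be the number of primes `p ≤ n` with `W β p`
prime.  The base `2` is fixed.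

For almost every `β` the quotient `M β n / log n` tends to `e ^ γ / log 2` (`BaseTwoLaw`).  We
determine the size of the exceptional set in the sense of category and of dimension.

* For the generic `β` (a comeager set) the law fails in the strongest sense: `M β n` is infinitely
  often smaller than any given function tending to infinity, and infinitely often equal to the number
  of all primes up to `n`, but for at most `2 log n` of them.
* In every interval of amplitudes the set on which `M β n` exceeds a given function of smaller order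
  than `n / log n` infinitely often has Hausdorff dimension one; in particular the law fails on a set
  of dimension one.  The set on which `M β n` is infinitely often at least `c` times the number of all
  primes up to `n` has dimension at least `1 - c`.
* There is `c > 0` such that in every interval of amplitudes the `β` for which `W β p` is prime for
  finitely many `p` only form a set of Hausdorff dimension at least `c`.
-/

namespace Pool.Agent.Results.MP_9b2bac_nt.ExceptionalAmplitudes

open Filter Topology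

/-- The product, with multiplicity, of the prime factors of `m` that are larger than `p`. -/
def roughPart (p m : ℕ) : ℕ := (m.primeFactorsList.filter (fun r => p < r)).prod

/-- The `p`-rough part of the largest integer below `β * 2 ^ p`. -/
noncomputable def W (β : ℝ) (p : ℕ) : ℕ := roughPart p (⌈β * 2 ^ p⌉₊ - 1)

/-- The number of primes `p ≤ n` for which `W β p` is prime. -/
noncomputable def M (β : ℝ) (n : ℕ) : ℕ :=
  ((Finset.range (n + 1)).filter (fun p => p.Prime ∧ (W β p).Prime)).card

/-- A prime factor of `2 ^ p - 1` is larger than `p`. -/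
theorem lt_of_dvd {p r : ℕ} (hp : p.Prime) (hr : r.Prime) (h : r ∣ 2 ^ p - 1) : p < r := by
  have := Fact.mk hr
  have h1 : ((2 : ZMod r)) ^ p = 1 := by
    have h2 : ((2 ^ p - 1 : ℕ) : ZMod r) = 0 := (ZMod.natCast_eq_zero_iff _ _).2 h
    rw [Nat.cast_sub Nat.one_le_two_pow, sub_eq_zero] at h2
    push_cast at h2
    exact h2
  have h2 : (2 : ZMod r) ≠ 0 := by
    intro h0
    rw [h0, zero_pow hp.ne_zero] at h1
    exact zero_ne_one h1
  have h3 : orderOf (2 : ZMod r) ∣ p := orderOf_dvd_of_pow_eq_one h1
  have h4 : orderOf (2 : ZMod r) ∣ r - 1 := ZMod.orderOf_dvd_card_sub_one h2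
  rcases (Nat.dvd_prime hp).1 h3 with h5 | h5
  · rw [orderOf_eq_one_iff] at h5
    exfalso
    have h6 : (1 : ZMod r) = 0 := by
      have : (2 : ZMod r) - 1 = 0 := sub_eq_zero.2 h5
      have e : (2 : ZMod r) - 1 = 1 := by norm_num
      rwa [e] at this
    exact one_ne_zero h6
  · rw [h5] at h4
    have h6 := hr.two_le
    have h7 := Nat.le_of_dvd (by omega) h4
    omega

/-- At `β = 1` the number `W β p` is the Mersenne number. -/
theorem W_one {p : ℕ} (hp : p.Prime) : W 1 p = 2 ^ p - 1 := by
  have e1 : ⌈(1 : ℝ) * 2 ^ p⌉₊ = 2 ^ p := by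
    rw [one_mul]
    exact_mod_cast Nat.ceil_natCast (R := ℝ) (2 ^ p)
  unfold W
  rw [e1]
  unfold roughPart
  rw [List.filter_eq_self.2]
  · exact Nat.prod_primeFactorsList (Nat.sub_ne_zero_of_lt (Nat.one_lt_two_pow hp.ne_zero))
  · intro r hr
    simpa using lt_of_dvd hp (Nat.prime_of_mem_primeFactorsList hr)
      (Nat.dvd_of_mem_primeFactorsList hr)

theorem W_eq (β : ℝ) (p : ℕ) : Pool.Agent.Helper76x.EX.WB 2 β p = W β p := by
  unfold Pool.Agent.Helper76x.EX.WB W
  push_cast
  rfl

theorem M_eq (β : ℝ) (n : ℕ) : Pool.Agent.Helper76x.EX.MB 2 β n = M β n := by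
  unfold Pool.Agent.Helper76x.EX.MB M
  simp only [W_eq]

/-- At `β = 1` the counting function is that of the Mersenne primes.  The behaviour of `M β` for the
generic amplitude; the failure of the law on a comeager set and, in every open set of amplitudes, on
a set of dimension one; the dimension of the sets of amplitudes with many exponents and with finitely
many exponents. -/
theorem result :
    (∀ n : ℕ, M 1 n = ((Finset.range (n + 1)).filter (fun p => p.Prime ∧ (2 ^ p - 1).Prime)).card) ∧
    (∀ f : ℕ → ℝ, Tendsto f atTop atTop → ∀ᶠ β : ℝ in residual ℝ, 0 < β →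
      (∃ᶠ n : ℕ in atTop, (M β n : ℝ) ≤ f n) ∧
      (∃ᶠ n : ℕ in atTop, (Nat.primeCounting n : ℝ) ≤ M β n + 2 * Real.log n) ∧
      ¬ ∃ l : ℝ, Tendsto (fun n : ℕ => (M β n : ℝ) / Real.log n) atTop (𝓝 l)) ∧
    (∀ U : Set ℝ, IsOpen U → (U ∩ Set.Ioi 0).Nonempty →
      dimH {β : ℝ | β ∈ U ∧ ¬ Tendsto (fun n : ℕ => (M β n : ℝ) / Real.log n) atTop
        (𝓝 (Real.exp Real.eulerMascheroniConstant / Real.log 2))} = 1 ∧
      (∀ g : ℕ → ℝ, Tendsto (fun n : ℕ => g n * Real.log n / n) atTop (𝓝 0) →
        dimH {β : ℝ | β ∈ U ∧ ∃ᶠ n : ℕ in atTop, g n ≤ M β n} = 1) ∧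
      (∀ c : ℝ, 0 ≤ c → c < 1 → ENNReal.ofReal (1 - c) ≤
        dimH {β : ℝ | β ∈ U ∧ ∃ᶠ n : ℕ in atTop, c * Nat.primeCounting n ≤ M β n})) ∧
    (∃ c : ℝ, 0 < c ∧ ∀ U : Set ℝ, IsOpen U → (U ∩ Set.Ioi 0).Nonempty →
      ENNReal.ofReal c ≤ dimH {β : ℝ | β ∈ U ∧ {p : ℕ | p.Prime ∧ (W β p).Prime}.Finite}) := by
  -- a frequently large count excludes a finite limit
  have hbig : ∀ (β : ℝ) (h : ℕ → ℝ), Tendsto (fun n : ℕ => h n / Real.log n) atTop atTop →
      (∃ᶠ n : ℕ in atTop, h n ≤ M β n) →
      ∀ l : ℝ, ¬ Tendsto (fun n : ℕ => (M β n : ℝ) / Real.log n) atTop (𝓝 l) := by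
    intro β h hh hf l hl
    have h1 := hl.eventually (gt_mem_nhds (show l < l + 1 by linarith))
    have h2 := hh.eventually_ge_atTop (l + 1)
    obtain ⟨n, ⟨⟨hn1, hn2⟩, hn3⟩, hn4⟩ :=
      (((hf.and_eventually h1).and_eventually h2).and_eventually (eventually_gt_atTop 1)).exists
    have hlog : 0 < Real.log n := Real.log_pos (by exact_mod_cast hn4)
    have h3 : h n / Real.log n ≤ M β n / Real.log n := div_le_div_of_nonneg_right hn1 hlog.le
    linarith
  have hgauge : ∀ U : Set ℝ, IsOpen U → (U ∩ Set.Ioi 0).Nonempty → ∀ g : ℕ → ℝ,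
      Tendsto (fun n : ℕ => g n * Real.log n / n) atTop (𝓝 0) →
        dimH {β : ℝ | β ∈ U ∧ ∃ᶠ n : ℕ in atTop, g n ≤ M β n} = 1 := by
    intro U hU hne g hg
    have := Pool.Agent.Helper76x.EX.dim_gauge (b := 2) le_rfl g hg hU hne
    simpa only [M_eq] using this
  refine ⟨fun n => ?_, fun f hf => ?_, fun U hU hne => ⟨?_, hgauge U hU hne, fun c hc0 hc1 => ?_⟩, ?_⟩
  · unfold M
    congr 1
    exact Finset.filter_congr fun p _ => and_congr_right fun hp => by rw [W_one hp]
  · have h1 := Pool.Agent.Helper76x.EX.generic_few (b := 2) le_rfl f hf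
    have h2 := Pool.Agent.Helper76x.EX.generic_many (b := 2) le_rfl
    simp only [M_eq] at h1 h2
    filter_upwards [h1, h2] with β h1 h2 hβ
    refine ⟨h1 hβ, h2 hβ, ?_⟩
    rintro ⟨l, hl⟩
    refine hbig β (fun n => Nat.primeCounting n - 2 * Real.log n) ?_ ?_ l hl
    · have e1 := Pool.Agent.Helper76x.EX.pi_nat
      have e2 : Tendsto (fun n : ℕ => (n : ℝ) / (Real.log n * Real.log n)) atTop atTop := by
        have e3 : Tendsto (fun x : ℝ => Real.log x ^ 2 / x) atTop (𝓝 0) := by
          have := Real.isLittleO_pow_log_id_atTop (n := 2)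
          exact this.tendsto_div_nhds_zero
        have e4 := e3.comp (tendsto_natCast_atTop_atTop (R := ℝ))
        have e5 : Tendsto (fun n : ℕ => Real.log (n : ℝ) ^ 2 / (n : ℝ)) atTop (𝓝[>] 0) := by
          rw [tendsto_nhdsWithin_iff]
          refine ⟨e4, ?_⟩
          filter_upwards [eventually_gt_atTop 1] with n hn
          have hlog : 0 < Real.log n := Real.log_pos (by exact_mod_cast hn)
          have : (0 : ℝ) < n := by exact_mod_cast (by omega : 0 < n)
          exact Set.mem_Ioi.2 (by positivity)
        refine (tendsto_inv_nhdsGT_zero.comp e5).congr fun n => ?_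
        simp only [Function.comp_apply]
        rw [inv_div, sq]
      have e6 := (e1.pos_mul_atTop one_pos e2).atTop_add (tendsto_const_nhds (x := (-2 : ℝ)))
      refine e6.congr' ?_
      filter_upwards [eventually_gt_atTop 1] with n hn
      have hlog : 0 < Real.log n := Real.log_pos (by exact_mod_cast hn)
      have : (0 : ℝ) < n := by exact_mod_cast (by omega : 0 < n)
      field_simp
      ring
    · exact (h2 hβ).mono fun n hn => by linarith
  · -- the law fails on a set of dimension one
    apply le_antisymm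
    · calc _ ≤ dimH (Set.univ : Set ℝ) := dimH_mono (Set.subset_univ _)
        _ = 1 := Real.dimH_univ
    · have h1 := hgauge U hU hne (fun n => Real.log n ^ 2) (by
        have e3 : Tendsto (fun x : ℝ => Real.log x ^ 3 / x) atTop (𝓝 0) := by
          have := Real.isLittleO_pow_log_id_atTop (n := 3)
          exact this.tendsto_div_nhds_zero
        refine (e3.comp (tendsto_natCast_atTop_atTop (R := ℝ))).congr fun n => ?_
        simp only [Function.comp_apply]
        ring)
      rw [← h1]
      refine dimH_mono ?_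
      rintro β ⟨hβ, h⟩
      refine ⟨hβ, hbig β (fun n => Real.log n ^ 2) ?_ h _⟩
      refine (Real.tendsto_log_atTop.comp (tendsto_natCast_atTop_atTop (R := ℝ))).congr' ?_
      filter_upwards [eventually_gt_atTop 1] with n hn
      have hlog : 0 < Real.log n := Real.log_pos (by exact_mod_cast hn)
      simp only [Function.comp_apply]
      field_simp
  · have := Pool.Agent.Helper76x.EX.dim_many (b := 2) le_rfl hc0 hc1 hU hne
    simpa only [M_eq] using this
  · obtain ⟨s, hs, h⟩ := Pool.Agent.Helper76x.EX.Few.H_gap (b := 2) le_rfl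
    refine ⟨s, hs, fun U hU hne => ?_⟩
    obtain ⟨u, v, hu, huv, hsub⟩ := Pool.Agent.Helper76x.EX.exists_Ioo hU hne
    refine (Pool.Agent.Helper76x.EX.Few.dim_few le_rfl hs h hu huv).trans (dimH_mono ?_)
    rintro β ⟨hβ, hf⟩
    refine ⟨hsub hβ, ?_⟩
    obtain ⟨N, hN⟩ := eventually_atTop.1 hf
    refine (Set.finite_lt_nat N).subset ?_
    rintro p ⟨hp, hW⟩
    by_contra hc
    rw [← W_eq] at hW
    exact hN p (not_lt.1 hc) hp hW

end Pool.Agent.Results.MP_9b2bac_nt.ExceptionalAmplitudes
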