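import Mathlib
import Pool.Agent.N176.GP.Fin
import Pool.Agent.N176.OW.All2
import Pool.Agent.H32x.PL.Ex

set_option autoImplicit false

/-!
# Seen from a typical exponent, the exponents of almost every amplitude form a Poisson process

For real `β > 0` and a prime `p` let `W β p` be the `p`-rough part (the product, with multiplicity,
of the prime factors larger than `p`) of the largest integer below `β * 2 ^ p`.  For `β = 1` this is
the Mersenne number `2 ^ p - 1` itself.  The exponents of `β` in a set `S` are the primes `p` of `S`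
with `W β p` prime.  The base `2` is fixed.

According to the model behind the conjecture the exponents in `S` form, on the scale `κ V S p`, where
`V S n` is the sum of `log p / p` over the primes `p ≤ n` of `S` and `κ = e ^ γ / log 2`, a Poisson
process of intensity one; for the set of all primes the scale is `κ log p`.  We prove this for almost
every `β` and for every set `S` of primes of infinite weight, whose dyadic pieces have weights tending
to zero and in which the pairs `p`, `p + h` have weight zero relative to the weight of `S`, for every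
`h` (without this condition the law fails, as zero digits repeat an exponent).  For instance for all
primes in the windows `(2 ^ i, (1 + ε i) 2 ^ i]`, where `ε i → 0` and `∑ ε i = ∞`.

The law: for all `0 = x 0 < x 1 < ... < x r` and all `k 1, ..., k r` the proportion, among the
exponents `p ≤ n`, of those followed by exactly `k i` exponents `q` with
`x (i - 1) < κ (V S q - V S p) ≤ x i` for all `i` tends to the product of the Poisson probabilities.
For `r = 1` and `k = 0` this says that the gaps between consecutive exponents have the exponential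
distribution.
-/

namespace Pool.Agent.Results.MP_9b2bac_nt.PoissonStatistics

open Filter Topology MeasureTheory

/-- The product, with multiplicity, of the prime factors of `m` that are larger than `p`. -/
def roughPart (p m : ℕ) : ℕ := (m.primeFactorsList.filter (fun r => p < r)).prod

/-- The `p`-rough part of the largest integer below `β * 2 ^ p`. -/
noncomputable def W (β : ℝ) (p : ℕ) : ℕ := roughPart p (⌈β * 2 ^ p⌉₊ - 1)

/-- The exponents of `β` in `S`: the primes `p` in `S` for which `W β p` is prime. -/
def E (S : Set ℕ) (β : ℝ) : Set ℕ := {p | p.Prime ∧ p ∈ S ∧ (W β p).Prime}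

open Classical in
/-- The sum of `log p / p` over the primes `p ≤ n` in the set `S`. -/
noncomputable def V (S : Set ℕ) (n : ℕ) : ℝ :=
  ∑ p ∈ (Finset.range (n + 1)).filter (fun p => p.Prime ∧ p ∈ S), Real.log p / p

/-- The constant of the law, `e ^ γ / log 2`. -/
noncomputable def κ : ℝ := Real.exp Real.eulerMascheroniConstant / Real.log 2

open Classical in
/-- For almost every `β > 0` the exponents of `β` in `S` have, seen from a typical exponent and on the
scale `κ * V S`, the statistics of a Poisson process of intensity one: the proportion, among the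
exponents `p ≤ n`, of those with exactly `k i` exponents `q` in the window
`x i < κ * (V S q - V S p) ≤ x (i + 1)`, for all `i < r`, tends to the product of the Poisson
probabilities. -/
def PoissonLaw (S : Set ℕ) : Prop :=
  ∀ᵐ β : ℝ, 0 < β → ∀ (r : ℕ) (x : ℕ → ℝ) (k : Fin r → ℕ), x 0 = 0 → (∀ i < r, x i < x (i + 1)) →
    Tendsto (fun n : ℕ =>
      (((Finset.range (n + 1)).filter (fun p => p ∈ E S β ∧ ∀ i : Fin r,
        {q | q ∈ E S β ∧ x i < κ * (V S q - V S p) ∧ κ * (V S q - V S p) ≤ x (i + 1)}.encard =
          k i)).card : ℝ) / ((Finset.range (n + 1)).filter (fun p => p ∈ E S β)).card) atTop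
      (𝓝 (∏ i : Fin r, Real.exp (-(x (i + 1) - x i)) * (x (i + 1) - x i) ^ k i / (k i).factorial))

/-- At `β = 1` the exponents are those of the Mersenne primes.  The Poisson law holds for every set `S`
of infinite weight whose dyadic pieces have weights tending to zero and whose pairs at every fixed
distance have relative weight zero; in particular for all primes in the windows
`(2 ^ i, (1 + ε i) 2 ^ i]`, if `ε i → 0` and `∑ ε i = ∞`. -/
theorem result :
    (∀ S : Set ℕ, E S 1 = {p | p.Prime ∧ p ∈ S ∧ (2 ^ p - 1).Prime}) ∧
    (∀ S : Set ℕ, Tendsto (fun n => V S n) atTop atTop →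
      Tendsto (fun n : ℕ => V S (2 * n) - V S n) atTop (𝓝 0) →
      (∀ h : ℕ, 1 ≤ h → Tendsto (fun n =>
        V {p | p ∈ S ∧ p + h ∈ S ∧ (p + h).Prime} n / V S n) atTop (𝓝 0)) →
      PoissonLaw S) ∧
    (∀ ε : ℕ → ℝ, (∀ i, 0 ≤ ε i) → (∀ i, ε i ≤ 1) → Tendsto ε atTop (𝓝 0) → ¬ Summable ε →
      PoissonLaw {p | ∃ i : ℕ, 2 ^ i < p ∧ (p : ℝ) ≤ 2 ^ i * (1 + ε i)}) := by
  classical
  have ek : Pool.Agent.N176.OW.kap 2 = κ := by
    unfold Pool.Agent.N176.OW.kap κ
    norm_num
  have eE : ∀ S β, Pool.Agent.H32x.PL.Et 2 S β = E S β := by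
    intro S β
    unfold Pool.Agent.H32x.PL.Et E W Pool.Agent.N176.GP.NB
    push_cast
    rfl
  have ev : ∀ S n, Pool.Agent.H32x.PL.vv 2 S n = κ * V S n := by
    intro S n
    unfold Pool.Agent.H32x.PL.vv
    rw [ek]
    rfl
  have hmain : ∀ S : Set ℕ, Tendsto (fun n => V S n) atTop atTop →
      Tendsto (fun n : ℕ => V S (2 * n) - V S n) atTop (𝓝 0) →
      (∀ h : ℕ, 1 ≤ h → Tendsto (fun n =>
        V {p | p ∈ S ∧ p + h ∈ S ∧ (p + h).Prime} n / V S n) atTop (𝓝 0)) →
      PoissonLaw S := by
    intro S hS hD hP
    unfold PoissonLaw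
    filter_upwards [Pool.Agent.H32x.PL.palm Pool.Agent.N176.OW.All.fm Pool.Agent.N176.OW.All.lil
      (b := 2) le_rfl hS hD hP] with β hβ hβ0 r x k hx0 hx
    refine (hβ hβ0 r x k hx0 hx).congr fun n => ?_
    rw [Pool.Agent.H32x.PL.MB_eq]
    unfold Pool.Agent.H32x.PL.BB Pool.Agent.H32x.PL.Qp
    simp only [eE, ev, mul_sub]
  refine ⟨fun S => ?_, hmain, fun ε hε0 hε1 hε hεs => ?_⟩
  · unfold E
    ext p
    simp only [Set.mem_setOf_eq]
    refine and_congr_right fun hp => and_congr_right fun _ => ?_
    have h : W 1 p = 2 ^ p - 1 := Pool.Agent.N176.GP.special hp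
    rw [h]
  · obtain ⟨h1, h2, h3⟩ := Pool.Agent.H32x.PL.thin_ok hε0 hε1 hε hεs
    exact hmain _ h1 h2 h3

end Pool.Agent.Results.MP_9b2bac_nt.PoissonStatistics
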