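import Mathlib
import Pool.Agent.H39x.LP.Main
import Pool.Agent.W66.ST

set_option autoImplicit false

/-!
# The Lenstra-Pomerance-Wagstaff law with a prescribed positive proportion of the leading digits

For a sequence of integers `a p` of the order `2 ^ p`, for instance `a p = 2 ^ p - 1`, for
`0.5834 < κ < 1` and for real `θ` let `N a κ θ p = a p + ⌊θ 2 ^ ⌊κ p⌋⌋`, so that `N a κ θ p` differs
from `a p` by at most `|θ| 2 ^ (κ p) + 1`. For `a p = 2 ^ p - 1` and `θ = 0` this is the Mersenne
number. Let `M S a κ θ n` be the number of primes `p ≤ n` in `S` for which the `p`-rough part of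
`N a κ θ p` is prime, and let `V S n` be the sum of `log p / p` over the primes `p ≤ n` in `S`.
We prove that for every such sequence and almost every real `θ`
`M univ a κ θ n = (e ^ γ / log 2) log n + O((log n) ^ (1/2) (log log n) ^ (5/2))`.

The proof needs the prime number theorem in intervals of length `x ^ 0.5834`.
-/

namespace Pool.Agent.Results.MP_9b2bac_nt.PrescribedDigits

open Filter Topology MeasureTheory Asymptotics

/-- The product, with multiplicity, of the prime factors of `m` that are larger than `p`. -/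
def roughPart (p m : ℕ) : ℕ := (m.primeFactorsList.filter (fun r => p < r)).prod

/-- The integer `a p + ⌊θ 2 ^ ⌊κ p⌋⌋` (zero if this is negative). -/
noncomputable def N (a : ℕ → ℤ) (κ θ : ℝ) (p : ℕ) : ℕ := (a p + ⌊θ * 2 ^ ⌊κ * p⌋₊⌋).toNat

open Classical in
/-- The number of primes `p ≤ n` in the set `S` for which the `p`-rough part of `N a κ θ p` is
prime. -/
noncomputable def M (S : Set ℕ) (a : ℕ → ℤ) (κ θ : ℝ) (n : ℕ) : ℕ :=
  ((Finset.range (n + 1)).filter (fun p => p.Prime ∧ p ∈ S ∧ (roughPart p (N a κ θ p)).Prime)).card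

open Classical in
/-- The sum of `log p / p` over the primes `p ≤ n` in the set `S`. -/
noncomputable def V (S : Set ℕ) (n : ℕ) : ℝ :=
  ∑ p ∈ (Finset.range (n + 1)).filter (fun p => p.Prime ∧ p ∈ S), Real.log p / p

lemma V_eq (S : Set ℕ) : V S = Pool.Agent.TH888.R.VS S := by
  classical
  funext n
  unfold V Pool.Agent.TH888.R.VS
  rw [Finset.sum_filter]
  refine Finset.sum_congr rfl fun p _ => ?_
  by_cases h : p.Prime ∧ p ∈ S
  · rw [if_pos h, if_pos ⟨h.2, h.1⟩]
    rfl
  · rw [if_neg h, if_neg fun h1 => h ⟨h1.2, h1.1⟩]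

lemma N_eq (a : ℕ → ℤ) (κ θ : ℝ) : N a κ θ = Pool.Agent.H39x.LP.sq 2 κ a θ := by
  funext p
  unfold N Pool.Agent.H39x.LP.sq
  norm_num

lemma rough_mersenne {p : ℕ} (hp : p.Prime) : roughPart p (2 ^ p - 1) = 2 ^ p - 1 := by
  have h := Pool.Agent.W66S.repunit_special (b := 2) le_rfl hp (by
    intro h
    exact hp.one_lt.ne' (Nat.dvd_one.1 h))
  have e1 : ⌈(1 / (((2 : ℕ) : ℝ) - 1)) * ((2 : ℕ) : ℝ) ^ p⌉₊ = 2 ^ p := by
    have : (1 / (((2 : ℕ) : ℝ) - 1)) * ((2 : ℕ) : ℝ) ^ p = ((2 ^ p : ℕ) : ℝ) := by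
      push_cast
      norm_num
    rw [this, Nat.ceil_natCast]
  rw [e1, Nat.geomSum_eq le_rfl] at h
  have h2 : (2 ^ p - 1) / (2 - 1) = 2 ^ p - 1 := by simp
  rw [h2] at h
  exact h

lemma N_mersenne (κ : ℝ) (p : ℕ) : N (fun p => 2 ^ p - 1) κ 0 p = 2 ^ p - 1 := by
  unfold N
  rw [zero_mul, Int.floor_zero, add_zero]
  have : ((2 : ℤ) ^ p - 1) = ((2 ^ p - 1 : ℕ) : ℤ) := by
    rw [Nat.cast_sub Nat.one_le_two_pow]
    push_cast
    ring
  show ((2 : ℤ) ^ p - 1).toNat = _
  rw [this]
  exact Int.toNat_natCast _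

/-- For the Mersenne numbers and `θ = 0` the counting function is that of the Mersenne primes. For
every sequence of integers of the order `2 ^ p` and almost every `θ` the law holds, for the set of
all primes; and for every set `S` of primes there are, for almost every `θ`, infinitely many `p`
with prime rough part if and only if the weight of `S` is infinite, and then the law holds. -/
theorem result :
    (∀ (κ : ℝ) (n : ℕ), M Set.univ (fun p => 2 ^ p - 1) κ 0 n =
      ((Finset.range (n + 1)).filter (fun p => p.Prime ∧ (2 ^ p - 1).Prime)).card) ∧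
    ∀ κ : ℝ, 0.5834 < κ → κ < 1 → ∀ a : ℕ → ℤ,
      (∃ c C : ℝ, 0 < c ∧ ∀ p : ℕ, p.Prime → c * 2 ^ p ≤ a p ∧ (a p : ℝ) ≤ C * 2 ^ p) →
      (∀ᵐ θ : ℝ, (fun n : ℕ => (M Set.univ a κ θ n : ℝ) -
          Real.exp Real.eulerMascheroniConstant / Real.log 2 * Real.log n) =O[atTop]
        (fun n : ℕ => Real.sqrt (Real.log n) * (Real.log (Real.log n)) ^ ((5 : ℝ) / 2))) ∧
      (∀ S : Set ℕ, ∀ᵐ θ : ℝ,
        ({p : ℕ | p.Prime ∧ p ∈ S ∧ (roughPart p (N a κ θ p)).Prime}.Infinite ↔
          Tendsto (V S) atTop atTop) ∧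
        (Tendsto (V S) atTop atTop → (fun n : ℕ => (M S a κ θ n : ℝ) -
          Real.exp Real.eulerMascheroniConstant / Real.log 2 * V S n) =O[atTop]
          (fun n : ℕ => Real.sqrt (V S n * Real.log (Real.log n)) *
            (Real.log (V S n * Real.log (Real.log n))) ^ 2))) := by
  refine ⟨fun κ n => ?_, fun κ hκ hκ1 a ha => ?_⟩
  · unfold M
    congr 1
    ext p
    simp only [Finset.mem_filter, Set.mem_univ, true_and]
    exact and_congr_right fun _ => and_congr_right fun hp => by
      rw [N_mersenne, rough_mersenne hp]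
  · obtain ⟨c, C, hc, h⟩ := ha
    have hl : 0 < Real.log 2 := Real.log_pos (by norm_num)
    have hexp : ∀ p : ℕ, Real.exp (Real.log 2 * p) = 2 ^ p := by
      intro p
      rw [mul_comm, Real.exp_nat_mul, Real.exp_log (by norm_num)]
    have hA : ∀ᶠ p : ℕ in atTop, p.Prime → c * Real.exp (Real.log 2 * p) ≤ a p ∧
        (a p : ℝ) ≤ C * Real.exp (Real.log 2 * p) :=
      Eventually.of_forall fun p hp => by rw [hexp]; exact h p hp
    have h1 : 0.5834 * Real.log 2 < κ * Real.log ((2 : ℕ) : ℝ) := by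
      push_cast
      exact mul_lt_mul_of_pos_right hκ hl
    have h2 : κ * Real.log ((2 : ℕ) : ℝ) < Real.log 2 := by
      push_cast
      exact mul_lt_of_lt_one_left hl hκ1
    refine ⟨?_, fun S => ?_⟩
    · filter_upwards [Pool.Agent.H39x.LP.main_all le_rfl hl h1 h2 hc hA] with θ hθ
      have e : ∀ n, M Set.univ a κ θ n =
          Pool.Agent.TH888.R.cS Set.univ (Pool.Agent.H39x.LP.sq 2 κ a θ) n := by
        intro n
        unfold M
        rw [N_eq]
        rfl
      simp only [e]
      exact hθ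
    · rw [V_eq]
      filter_upwards [Pool.Agent.H39x.LP.main_set le_rfl hl h1 h2 hc hA S] with θ hθ
      have e : ∀ n, M S a κ θ n =
          Pool.Agent.TH888.R.cS S (Pool.Agent.H39x.LP.sq 2 κ a θ) n := by
        intro n
        unfold M
        rw [N_eq]
        rfl
      simp only [e, N_eq]
      exact hθ

end Pool.Agent.Results.MP_9b2bac_nt.PrescribedDigits
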